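import Pool.Agent.helper67.RG.Spec

/-! # MP_2e0e07: row REL (the sum of two roots satisfies a universal monic equation) -/

namespace Pool.Agent.RG.REL

open Matrix Polynomial

/-- companion matrix of `X ^ n + ∑ c k X ^ k` -/
def comp {S : Type*} [CommRing S] (n : ℕ) (c : ℕ → S) : Matrix (Fin n) (Fin n) S :=
  fun k j => if (j : ℕ) + 1 = n then -c k else if (k : ℕ) = j + 1 then 1 else 0

/-- the Kronecker sum of the companion matrix with itself -/
def ks {S : Type*} [CommRing S] (n : ℕ) (c : ℕ → S) : Matrix (Fin n × Fin n) (Fin n × Fin n) S :=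
  fun p q => comp n c p.1 q.1 * (if p.2 = q.2 then 1 else 0) +
    (if p.1 = q.1 then 1 else 0) * comp n c p.2 q.2

theorem comp_map {S T : Type*} [CommRing S] [CommRing T] (f : S →+* T) (n : ℕ) (c : ℕ → S)
    (k j : Fin n) : f (comp n c k j) = comp n (fun t => f (c t)) k j := by
  unfold comp
  split_ifs <;> simp

theorem ks_map {S T : Type*} [CommRing S] [CommRing T] (f : S →+* T) (n : ℕ) (c : ℕ → S) :
    f.mapMatrix (ks n c) = ks n (fun t => f (c t)) := by
  ext p q
  rw [RingHom.mapMatrix_apply, Matrix.map_apply]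
  unfold ks
  rw [map_add, map_mul, map_mul, comp_map, comp_map]
  congr 2
  · split_ifs <;> simp
  · split_ifs <;> simp

theorem comp_vec {S : Type*} [CommRing S] (n : ℕ) (c : ℕ → S) (α : S)
    (h : α ^ n + ∑ k : Fin n, c k * α ^ (k : ℕ) = 0) (j : Fin n) :
    ∑ k : Fin n, α ^ (k : ℕ) * comp n c k j = α * α ^ (j : ℕ) := by
  unfold comp
  by_cases hj : (j : ℕ) + 1 = n
  · simp only [hj, if_true]
    have e : ∑ k : Fin n, α ^ (k : ℕ) * -c k = -∑ k : Fin n, c k * α ^ (k : ℕ) := by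
      rw [← Finset.sum_neg_distrib]
      exact Finset.sum_congr rfl fun k _ => by ring
    rw [e, ← pow_succ', hj]
    linear_combination (-1 : S) * h
  · simp only [hj, if_false]
    have hlt : (j : ℕ) + 1 < n := by have := j.2; omega
    rw [Finset.sum_eq_single (⟨(j : ℕ) + 1, hlt⟩ : Fin n)]
    · simp [pow_succ']
    · intro b _ hb
      rw [if_neg, mul_zero]
      intro h2
      exact hb (Fin.ext h2)
    · intro h2
      exact absurd (Finset.mem_univ _) h2

theorem ks_vec {S : Type*} [CommRing S] (n : ℕ) (c : ℕ → S) (α β : S)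
    (h : α ^ n + ∑ k : Fin n, c k * α ^ (k : ℕ) = 0)
    (h' : β ^ n + ∑ k : Fin n, c k * β ^ (k : ℕ) = 0) (q : Fin n × Fin n) :
    ∑ p : Fin n × Fin n, (α ^ (p.1 : ℕ) * β ^ (p.2 : ℕ)) * ks n c p q =
      (α + β) * (α ^ (q.1 : ℕ) * β ^ (q.2 : ℕ)) := by
  unfold ks
  have e1 : ∑ p : Fin n × Fin n, (α ^ (p.1 : ℕ) * β ^ (p.2 : ℕ)) *
      (comp n c p.1 q.1 * (if p.2 = q.2 then 1 else 0)) =
      (∑ a : Fin n, α ^ (a : ℕ) * comp n c a q.1) * β ^ (q.2 : ℕ) := by
    rw [Fintype.sum_prod_type, Finset.sum_mul]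
    refine Finset.sum_congr rfl fun a _ => ?_
    rw [Finset.sum_eq_single q.2]
    · simp only [if_true]
      ring
    · intro b _ hb
      rw [if_neg hb]
      ring
    · intro h2
      exact absurd (Finset.mem_univ _) h2
  have e2 : ∑ p : Fin n × Fin n, (α ^ (p.1 : ℕ) * β ^ (p.2 : ℕ)) *
      ((if p.1 = q.1 then 1 else 0) * comp n c p.2 q.2) =
      α ^ (q.1 : ℕ) * (∑ b : Fin n, β ^ (b : ℕ) * comp n c b q.2) := by
    rw [Fintype.sum_prod_type, Finset.sum_eq_single q.1]
    · rw [Finset.mul_sum]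
      refine Finset.sum_congr rfl fun b _ => ?_
      simp only [if_true]
      ring
    · intro a _ ha
      refine Finset.sum_eq_zero fun b _ => ?_
      simp only [if_neg ha]
      ring
    · intro h2
      exact absurd (Finset.mem_univ _) h2
  simp only [mul_add]
  rw [Finset.sum_add_distrib, e1, e2, comp_vec n c α h q.1, comp_vec n c β h' q.2]
  ring

theorem ks_root {F : Type*} [Field F] (n : ℕ) (hn : 0 < n) (c : ℕ → F) (α β : F)
    (h : α ^ n + ∑ k : Fin n, c k * α ^ (k : ℕ) = 0)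
    (h' : β ^ n + ∑ k : Fin n, c k * β ^ (k : ℕ) = 0) :
    (ks n c).charpoly.IsRoot (α + β) := by
  rw [Polynomial.IsRoot, Matrix.eval_charpoly]
  rw [← Matrix.exists_vecMul_eq_zero_iff]
  refine ⟨fun p => α ^ (p.1 : ℕ) * β ^ (p.2 : ℕ), ?_, ?_⟩
  · intro h0
    have := congrFun h0 (⟨0, hn⟩, ⟨0, hn⟩)
    simp at this
  · ext q
    rw [Matrix.vecMul_sub]
    simp only [Pi.sub_apply, Pi.zero_apply]
    have e1 : ((fun p : Fin n × Fin n => α ^ (p.1 : ℕ) * β ^ (p.2 : ℕ)) ᵥ* ks n c) q =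
        (α + β) * (α ^ (q.1 : ℕ) * β ^ (q.2 : ℕ)) := ks_vec n c α β h h' q
    rw [e1]
    have e2 : ((fun p : Fin n × Fin n => α ^ (p.1 : ℕ) * β ^ (p.2 : ℕ)) ᵥ*
        (Matrix.scalar (Fin n × Fin n)) (α + β)) q =
        (α ^ (q.1 : ℕ) * β ^ (q.2 : ℕ)) * (α + β) := by
      rw [Matrix.scalar_apply, Matrix.vecMul_diagonal]
    rw [e2]
    ring

theorem root_sum {E F : Type*} [Field E] [Field F] (P : E[X]) (hP : P.Monic) (n : ℕ)
    (hn : P.natDegree = n) (ι : E →+* F) (α : F) (h : (P.map ι).IsRoot α) :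
    α ^ n + ∑ k : Fin n, ι (P.coeff k) * α ^ (k : ℕ) = 0 := by
  rw [Polynomial.IsRoot, Polynomial.eval_map, Polynomial.eval₂_eq_sum_range, hn,
    Finset.sum_range_succ] at h
  have h1 : P.coeff n = 1 := by
    rw [← hn]
    exact hP
  rw [h1, map_one, one_mul, Finset.sum_range] at h
  rw [add_comm]
  exact h

theorem REL : REL_stmt := by
  intro E _ r i n
  refine ⟨(ks n (fun k => (MvPolynomial.X (i, k) : MvPolynomial (Fin r × ℕ) E))).charpoly,
    Matrix.charpoly_monic _, ?_⟩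
  intro P hP hn F _ ι α β hα hβ
  have hα' := root_sum (P i) hP n hn ι α hα
  have hβ' := root_sum (P i) hP n hn ι β hβ
  have hn0 : 0 < n := by
    rcases Nat.eq_zero_or_pos n with h0 | h0
    · subst h0
      simp at hα'
    · exact h0
  have e1 : (((ks n (fun k => (MvPolynomial.X (i, k) : MvPolynomial (Fin r × ℕ) E))).charpoly.map
      (MvPolynomial.eval fun k : Fin r × ℕ => (P k.1).coeff k.2)).map ι) =
      (ks n (fun k => ι ((P i).coeff k))).charpoly := by
    rw [← Matrix.charpoly_map, ← Matrix.charpoly_map]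
    congr 1
    have h1 := ks_map (MvPolynomial.eval fun k : Fin r × ℕ => (P k.1).coeff k.2) n
      (fun k => (MvPolynomial.X (i, k) : MvPolynomial (Fin r × ℕ) E))
    rw [RingHom.mapMatrix_apply] at h1
    rw [h1]
    have h2 := ks_map ι n (fun t => (MvPolynomial.eval fun k : Fin r × ℕ => (P k.1).coeff k.2)
      (MvPolynomial.X (i, t) : MvPolynomial (Fin r × ℕ) E))
    rw [RingHom.mapMatrix_apply] at h2
    rw [h2]
    simp only [MvPolynomial.eval_X]
  rw [e1]
  exact ks_root n hn0 _ α β hα' hβ'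

end Pool.Agent.RG.REL
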